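import Mathlib

/-! Integers composed of few given primes are rare (Rankin), and the sum of `1/rad`. -/

set_option autoImplicit false

open Finset

namespace Pool.Agent.Helper14.KSP

/-- product of the prime factors of `k` outside `G` -/
def radG (G : Finset ℕ) (k : ℕ) : ℕ := ∏ p ∈ k.primeFactors \ G, p

/-- `n ↦ n ^ (-η)` -/
noncomputable def fη (η : ℝ) : ℕ →* ℝ where
  toFun n := (n : ℝ) ^ (-η)
  map_one' := by rw [Nat.cast_one]; exact Real.one_rpow _
  map_mul' m n := by push_cast; exact Real.mul_rpow (Nat.cast_nonneg _) (Nat.cast_nonneg _)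

theorem fη_apply (η : ℝ) (n : ℕ) : fη η n = (n : ℝ) ^ (-η) := rfl

/-- Rankin's bound. -/
theorem card_factored_le (η : ℝ) (hη : 0 < η) (s : Finset ℕ) (N : ℕ) :
    (((Icc 1 N).filter (fun n => n.primeFactors ⊆ s)).card : ℝ) ≤
      (N : ℝ) ^ η * ∏ p ∈ s with p.Prime, (1 - (p : ℝ) ^ (-η))⁻¹ := by
  have hf : ∀ {p : ℕ}, p.Prime → ‖fη η p‖ < 1 := by
    intro p hp
    rw [fη_apply, Real.norm_of_nonneg (by positivity)]
    exact Real.rpow_lt_one_of_one_lt_of_neg (by exact_mod_cast hp.one_lt) (by linarith)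
  obtain ⟨hsum, hhas⟩ :=
    EulerProduct.summable_and_hasSum_factoredNumbers_prod_filter_prime_geometric
      (f := fη η) hf s
  have hle : (((Icc 1 N).filter (fun n => n.primeFactors ⊆ s)).card : ℝ) ≤
      (N : ℝ) ^ η * ∑ n ∈ (Icc 1 N).filter (fun n => n.primeFactors ⊆ s), (n : ℝ) ^ (-η) := by
    rw [mul_sum, card_eq_sum_ones]
    push_cast
    refine sum_le_sum fun n hn => ?_
    have hn1 := mem_Icc.mp (mem_filter.mp hn).1
    have hn0 : (0 : ℝ) < n := by exact_mod_cast hn1.1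
    have hnN : (n : ℝ) ≤ N := by exact_mod_cast hn1.2
    have h1 : (n : ℝ) ^ η ≤ (N : ℝ) ^ η := Real.rpow_le_rpow hn0.le hnN hη.le
    calc (1 : ℝ) = (n : ℝ) ^ η * (n : ℝ) ^ (-η) := by
          rw [← Real.rpow_add hn0]; simp
      _ ≤ (N : ℝ) ^ η * (n : ℝ) ^ (-η) := mul_le_mul_of_nonneg_right h1 (by positivity)
  refine hle.trans (mul_le_mul_of_nonneg_left ?_ (by positivity))
  -- the finite sum is at most the full sum
  have hmem : ∀ n ∈ (Icc 1 N).filter (fun n => n.primeFactors ⊆ s), n ∈ Nat.factoredNumbers s := by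
    intro n hn
    have hn1 := mem_filter.mp hn
    exact Nat.mem_factoredNumbers_of_primeFactors_subset
      (by have := (mem_Icc.mp hn1.1).1; omega) hn1.2
  set A := (Icc 1 N).filter (fun n => n.primeFactors ⊆ s) with hA
  have h2 : ∑ n ∈ A, (n : ℝ) ^ (-η) = ∑ m ∈ A.attach, fη η (m : ℕ) := by
    rw [← sum_attach A]; rfl
  set ι : {x // x ∈ A} → Nat.factoredNumbers s := fun x => ⟨x.1, hmem x.1 x.2⟩ with hι
  have hinj : Function.Injective ι := by
    intro x y hxy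
    apply Subtype.ext
    have := congrArg Subtype.val hxy
    simpa [hι] using this
  have h3 : ∑ m ∈ A.attach, fη η (m : ℕ) =
      ∑ m ∈ A.attach.map ⟨ι, hinj⟩, fη η (m : ℕ) := by
    rw [sum_map]; rfl
  rw [h2, h3]
  have h4 := sum_le_hasSum (A.attach.map ⟨ι, hinj⟩)
    (fun m _ => by rw [fη_apply]; positivity) hhas
  simpa [fη_apply] using h4

/-- The Euler factor over few primes is small. -/
theorem prod_le (ε B : ℝ) (hε : 0 < ε) (hB : 0 < B) (η : ℝ) (hη : 0 < η) :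
    ∃ C : ℝ, 0 < C ∧ ∀ (N : ℕ) (s : Finset ℕ), 1 ≤ N → (s.card : ℝ) ≤ B * Real.log N →
      ∏ p ∈ s with p.Prime, (1 - (p : ℝ) ^ (-η))⁻¹ ≤ C * (N : ℝ) ^ ε := by
  -- threshold P0
  obtain ⟨P0, hP0, hP1, hP2⟩ : ∃ P0 : ℕ, 2 ≤ P0 ∧ (P0 : ℝ) ^ (-η) ≤ 1 / 2 ∧
      2 * B * (P0 : ℝ) ^ (-η) ≤ ε := by
    have ht : Filter.Tendsto (fun n : ℕ => (n : ℝ) ^ (-η)) Filter.atTop (nhds 0) :=
      (tendsto_rpow_neg_atTop hη).comp tendsto_natCast_atTop_atTop
    have hpos : 0 < min (1 / 2) (ε / (2 * B)) := lt_min (by norm_num) (by positivity)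
    obtain ⟨P0, h1, h2⟩ := ((ht.eventually (gt_mem_nhds hpos)).and
      (Filter.eventually_ge_atTop 2)).exists
    refine ⟨P0, h2, (h1.le.trans (min_le_left _ _)), ?_⟩
    have := h1.le.trans (min_le_right _ _)
    rw [le_div_iff₀ (by positivity)] at this
    linarith
  set C1 : ℝ := (1 - (2 : ℝ) ^ (-η))⁻¹ with hC1
  have h2η : (2 : ℝ) ^ (-η) < 1 := Real.rpow_lt_one_of_one_lt_of_neg (by norm_num) (by linarith)
  have hC1a : 1 ≤ C1 := by
    rw [hC1]
    exact (one_le_inv₀ (by linarith)).mpr (by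
      have : 0 < (2 : ℝ) ^ (-η) := by positivity
      linarith)
  refine ⟨C1 ^ P0, by positivity, ?_⟩
  intro N s hN hs
  have hfac : ∀ p ∈ s.filter (fun p => p.Prime), (1 - (p : ℝ) ^ (-η))⁻¹ ≤
      (if p < P0 then C1 else 1) * Real.exp (2 * (P0 : ℝ) ^ (-η)) := by
    intro p hp
    have hpp : p.Prime := (mem_filter.mp hp).2
    by_cases h : p < P0
    · rw [if_pos h]
      have h1 : (p : ℝ) ^ (-η) ≤ (2 : ℝ) ^ (-η) :=
        Real.rpow_le_rpow_of_nonpos (by norm_num) (by exact_mod_cast hpp.two_le) (by linarith)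
      have h2 : (1 - (p : ℝ) ^ (-η))⁻¹ ≤ C1 := by
        rw [hC1]
        exact inv_anti₀ (by linarith) (by linarith)
      have h3 : (1 : ℝ) ≤ Real.exp (2 * (P0 : ℝ) ^ (-η)) := Real.one_le_exp (by positivity)
      nlinarith
    · rw [if_neg h, one_mul]
      have hp0 : (P0 : ℝ) ≤ p := by exact_mod_cast not_lt.mp h
      have h1 : (p : ℝ) ^ (-η) ≤ (P0 : ℝ) ^ (-η) :=
        Real.rpow_le_rpow_of_nonpos (by positivity) hp0 (by linarith)
      have h0 : 0 ≤ (p : ℝ) ^ (-η) := by positivity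
      set x := (p : ℝ) ^ (-η) with hx
      have hx2 : x ≤ 1 / 2 := h1.trans hP1
      have h4 : (1 - x)⁻¹ ≤ 1 + 2 * x := by
        rw [inv_le_iff_one_le_mul₀ (by linarith)]
        nlinarith
      have h5 : 1 + 2 * x ≤ Real.exp (2 * x) := by
        have := Real.add_one_le_exp (2 * x); linarith
      have h6 : Real.exp (2 * x) ≤ Real.exp (2 * (P0 : ℝ) ^ (-η)) :=
        Real.exp_le_exp.mpr (by linarith)
      linarith
  have hnn : ∀ p ∈ s.filter (fun p => p.Prime), 0 ≤ (1 - (p : ℝ) ^ (-η))⁻¹ := by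
    intro p hp
    have hpp : p.Prime := (mem_filter.mp hp).2
    have : (p : ℝ) ^ (-η) < 1 :=
      Real.rpow_lt_one_of_one_lt_of_neg (by exact_mod_cast hpp.one_lt) (by linarith)
    exact inv_nonneg.mpr (by linarith)
  calc ∏ p ∈ s with p.Prime, (1 - (p : ℝ) ^ (-η))⁻¹
      ≤ ∏ p ∈ s with p.Prime, ((if p < P0 then C1 else 1) * Real.exp (2 * (P0 : ℝ) ^ (-η))) :=
        prod_le_prod hnn hfac
    _ = (∏ p ∈ s with p.Prime, (if p < P0 then C1 else 1)) *
          Real.exp (2 * (P0 : ℝ) ^ (-η)) ^ (s.filter (fun p => p.Prime)).card := by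
        rw [prod_mul_distrib, prod_const]
    _ ≤ C1 ^ P0 * (N : ℝ) ^ ε := by
        refine mul_le_mul ?_ ?_ (by positivity) (by positivity)
        · rw [prod_ite, prod_const, prod_const_one, mul_one]
          refine pow_le_pow_right₀ hC1a ?_
          calc ((s.filter (fun p => p.Prime)).filter (fun p => p < P0)).card
              ≤ (range P0).card := card_le_card (fun p hp => mem_range.mpr (mem_filter.mp hp).2)
            _ = P0 := card_range P0
        · rw [← Real.exp_nat_mul]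
          have hN0 : (0 : ℝ) < N := by exact_mod_cast hN
          rw [Real.rpow_def_of_pos hN0]
          refine Real.exp_le_exp.mpr ?_
          have hc : ((s.filter (fun p => p.Prime)).card : ℝ) ≤ B * Real.log N :=
            le_trans (by exact_mod_cast card_filter_le _ _) hs
          have hlog : 0 ≤ Real.log N := Real.log_nonneg (by exact_mod_cast hN)
          calc ((s.filter (fun p => p.Prime)).card : ℝ) * (2 * (P0 : ℝ) ^ (-η))
              ≤ (B * Real.log N) * (2 * (P0 : ℝ) ^ (-η)) :=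
                mul_le_mul_of_nonneg_right hc (by positivity)
            _ = Real.log N * (2 * B * (P0 : ℝ) ^ (-η)) := by ring
            _ ≤ Real.log N * ε := mul_le_mul_of_nonneg_left hP2 hlog

/-- Few primes: few integers. -/
theorem card_le (ε B : ℝ) (hε : 0 < ε) (hB : 0 < B) :
    ∃ C : ℝ, 0 < C ∧ ∀ (N : ℕ) (s : Finset ℕ), 1 ≤ N → (s.card : ℝ) ≤ B * Real.log N →
      (((Icc 1 N).filter (fun n => n.primeFactors ⊆ s)).card : ℝ) ≤ C * (N : ℝ) ^ ε := by
  obtain ⟨C, hC, h⟩ := prod_le (ε / 2) B (by linarith) hB (ε / 2) (by linarith)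
  refine ⟨C, hC, fun N s hN hs => ?_⟩
  have hN0 : (0 : ℝ) < N := by exact_mod_cast hN
  calc (((Icc 1 N).filter (fun n => n.primeFactors ⊆ s)).card : ℝ)
      ≤ (N : ℝ) ^ (ε / 2) * ∏ p ∈ s with p.Prime, (1 - (p : ℝ) ^ (-(ε / 2)))⁻¹ :=
        card_factored_le (ε / 2) (by linarith) s N
    _ ≤ (N : ℝ) ^ (ε / 2) * (C * (N : ℝ) ^ (ε / 2)) :=
        mul_le_mul_of_nonneg_left (h N s hN hs) (by positivity)
    _ = C * (N : ℝ) ^ ε := by
        have : (N : ℝ) ^ ε = (N : ℝ) ^ (ε / 2) * (N : ℝ) ^ (ε / 2) := by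
          rw [← Real.rpow_add hN0]; congr 1; ring
        rw [this]; ring

theorem card_primeFactors_le (n N : ℕ) (hn : n ≠ 0) (h : n ≤ N) :
    (n.primeFactors.card : ℝ) ≤ 2 * Real.log N := by
  have h1 : 2 ^ n.primeFactors.card ≤ n := by
    calc 2 ^ n.primeFactors.card = ∏ _p ∈ n.primeFactors, 2 := by rw [prod_const]
      _ ≤ ∏ p ∈ n.primeFactors, p :=
        prod_le_prod' fun p hp => (Nat.prime_of_mem_primeFactors hp).two_le
      _ ≤ n := Nat.le_of_dvd (Nat.pos_of_ne_zero hn) (Nat.prod_primeFactors_dvd n)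
  have h2 : (2 : ℝ) ^ n.primeFactors.card ≤ N := by exact_mod_cast h1.trans h
  have h3 := Real.log_le_log (by positivity) h2
  rw [Real.log_pow] at h3
  have h4 : (1 / 2 : ℝ) < Real.log 2 := by have := Real.log_two_gt_d9; linarith
  have h5 : (0 : ℝ) ≤ n.primeFactors.card := Nat.cast_nonneg _
  nlinarith

/-- `∑ 1/rad*` is `N^o(1)`. -/
theorem sum_inv_radG_le (ε B : ℝ) (hε : 0 < ε) (hB : 0 < B) :
    ∃ C : ℝ, 0 < C ∧ ∀ (N : ℕ) (G : Finset ℕ), 1 ≤ N → (G.card : ℝ) ≤ B * Real.log N →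
      ∑ h ∈ Icc 1 N, (1 : ℝ) / radG G h ≤ C * (N : ℝ) ^ ε := by
  obtain ⟨C, hC, hcard⟩ := card_le (ε / 2) (B + 2) (by linarith) (by linarith)
  -- log N <= C2 N^(ε/2)
  refine ⟨C * (1 + 2 / ε), by positivity, fun N G hN hG => ?_⟩
  have hN0 : (0 : ℝ) < N := by exact_mod_cast hN
  have hmap : ∀ h ∈ Icc 1 N, radG G h ∈ Icc 1 N := by
    intro h hh
    have h1 := mem_Icc.mp hh
    have hd : radG G h ∣ h := by
      refine dvd_trans (prod_dvd_prod_of_subset _ _ _ sdiff_subset) (Nat.prod_primeFactors_dvd h)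
    have h0 : 0 < h := by omega
    exact mem_Icc.mpr ⟨Nat.pos_of_dvd_of_pos hd h0, (Nat.le_of_dvd h0 hd).trans h1.2⟩
  rw [← sum_fiberwise_of_maps_to hmap]
  have hfib : ∀ r ∈ Icc 1 N, ∑ h ∈ (Icc 1 N).filter (fun h => radG G h = r),
      (1 : ℝ) / radG G h ≤ C * (N : ℝ) ^ (ε / 2) * (1 / r) := by
    intro r hr
    have hr1 := mem_Icc.mp hr
    have hr0 : (0 : ℝ) < r := by exact_mod_cast hr1.1
    have h1 : ∑ h ∈ (Icc 1 N).filter (fun h => radG G h = r), (1 : ℝ) / radG G h =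
        (((Icc 1 N).filter (fun h => radG G h = r)).card : ℝ) * (1 / r) := by
      rw [sum_congr rfl (fun h hh => by rw [(mem_filter.mp hh).2]), sum_const, nsmul_eq_mul]
    rw [h1]
    refine mul_le_mul_of_nonneg_right ?_ (by positivity)
    have hsub : (Icc 1 N).filter (fun h => radG G h = r) ⊆
        (Icc 1 N).filter (fun n => n.primeFactors ⊆ G ∪ r.primeFactors) := by
      intro h hh
      obtain ⟨hh1, hh2⟩ := mem_filter.mp hh
      refine mem_filter.mpr ⟨hh1, fun p hp => ?_⟩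
      by_cases hpG : p ∈ G
      · exact mem_union_left _ hpG
      · refine mem_union_right _ ?_
        rw [Nat.mem_primeFactors]
        refine ⟨Nat.prime_of_mem_primeFactors hp, ?_, by omega⟩
        rw [← hh2]
        exact dvd_prod_of_mem _ (mem_sdiff.mpr ⟨hp, hpG⟩)
    refine le_trans (by exact_mod_cast card_le_card hsub) (hcard N _ hN ?_)
    have h2 : ((G ∪ r.primeFactors).card : ℝ) ≤ G.card + r.primeFactors.card := by
      exact_mod_cast card_union_le _ _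
    have h3 := card_primeFactors_le r N (by omega) hr1.2
    calc ((G ∪ r.primeFactors).card : ℝ) ≤ G.card + r.primeFactors.card := h2
      _ ≤ B * Real.log N + 2 * Real.log N := add_le_add hG h3
      _ = (B + 2) * Real.log N := by ring
  refine (sum_le_sum hfib).trans ?_
  rw [← mul_sum]
  have hharm : ∑ r ∈ Icc 1 N, (1 : ℝ) / r ≤ 1 + Real.log N := by
    have h := harmonic_le_one_add_log N
    rw [harmonic_eq_sum_Icc] at h
    push_cast at h
    simpa [one_div] using h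
  have hlog : Real.log N ≤ (N : ℝ) ^ (ε / 2) / (ε / 2) :=
    Real.log_le_rpow_div hN0.le (by linarith)
  have h1N : (1 : ℝ) ≤ (N : ℝ) ^ (ε / 2) := Real.one_le_rpow (by exact_mod_cast hN) (by linarith)
  have hsum : ∑ r ∈ Icc 1 N, (1 : ℝ) / r ≤ (1 + 2 / ε) * (N : ℝ) ^ (ε / 2) := by
    calc ∑ r ∈ Icc 1 N, (1 : ℝ) / r ≤ 1 + Real.log N := hharm
      _ ≤ (N : ℝ) ^ (ε / 2) + (N : ℝ) ^ (ε / 2) / (ε / 2) := add_le_add h1N hlog
      _ = (1 + 2 / ε) * (N : ℝ) ^ (ε / 2) := by field_simp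
  calc C * (N : ℝ) ^ (ε / 2) * ∑ r ∈ Icc 1 N, (1 : ℝ) / r
      ≤ C * (N : ℝ) ^ (ε / 2) * ((1 + 2 / ε) * (N : ℝ) ^ (ε / 2)) :=
        mul_le_mul_of_nonneg_left hsum (by positivity)
    _ = C * (1 + 2 / ε) * (N : ℝ) ^ ε := by
        have : (N : ℝ) ^ ε = (N : ℝ) ^ (ε / 2) * (N : ℝ) ^ (ε / 2) := by
          rw [← Real.rpow_add hN0]; congr 1; ring
        rw [this]; ring

end Pool.Agent.Helper14.KSP
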