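import Pool.Agent.Helper14.KSP.Abs
import Pool.Agent.Helper14.KSP.Count

/-! The power lemma of project KS (MP_768c9c). -/

set_option autoImplicit false

open Finset

namespace Pool.Agent.Helper14.KSP

open Classical in
/-- the part of `k` made of the primes of `G` and of the primes whose exponent satisfies `S` -/
noncomputable def part (G : Finset ℕ) (S : ℕ → Prop) (k : ℕ) : ℕ :=
  ∏ p ∈ k.primeFactors.filter (fun p => p ∈ G ∨ S (k.factorization p)), p ^ k.factorization p

theorem part_dvd (G : Finset ℕ) (S : ℕ → Prop) (k : ℕ) (hk : k ≠ 0) : part G S k ∣ k := by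
  classical
  have h : (∏ p ∈ k.primeFactors, p ^ k.factorization p) = k := by
    have := Nat.prod_factorization_pow_eq_self hk
    rwa [Finsupp.prod, Nat.support_factorization] at this
  calc part G S k ∣ ∏ p ∈ k.primeFactors, p ^ k.factorization p :=
        prod_dvd_prod_of_subset _ _ _ (filter_subset _ _)
    _ = k := h

theorem part_pos (G : Finset ℕ) (S : ℕ → Prop) (k : ℕ) (hk : k ≠ 0) : 0 < part G S k :=
  Nat.pos_of_dvd_of_pos (part_dvd G S k hk) (Nat.pos_of_ne_zero hk)

open Classical in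
theorem primeFactors_part (G : Finset ℕ) (S : ℕ → Prop) (k : ℕ) (hk : k ≠ 0) :
    (part G S k).primeFactors =
      k.primeFactors.filter (fun p => p ∈ G ∨ S (k.factorization p)) := by
  ext p
  constructor
  · intro hp
    have hpp := Nat.prime_of_mem_primeFactors hp
    have hd : p ∣ part G S k := Nat.dvd_of_mem_primeFactors hp
    obtain ⟨q, hq, hpq⟩ := (hpp.prime.dvd_finsetProd_iff _).mp hd
    have hqp : q.Prime := Nat.prime_of_mem_primeFactors (mem_filter.mp hq).1
    have := (Nat.prime_dvd_prime_iff_eq hpp hqp).mp (hpp.dvd_of_dvd_pow hpq)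
    rw [this]; exact hq
  · intro hp
    have hp1 := (mem_filter.mp hp).1
    have hpp := Nat.prime_of_mem_primeFactors hp1
    refine Nat.mem_primeFactors.mpr ⟨hpp, ?_, (part_pos G S k hk).ne'⟩
    have h1 : p ^ k.factorization p ∣ part G S k := dvd_prod_of_mem (fun p => p ^ k.factorization p) hp
    refine dvd_trans (dvd_pow_self p ?_) h1
    have := (Nat.support_factorization k) ▸ hp1
    exact Finsupp.mem_support_iff.mp this

open Classical in
theorem radG_part (G : Finset ℕ) (S : ℕ → Prop) (k : ℕ) (hk : k ≠ 0) :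
    radG G (part G S k) = ∏ p ∈ (k.primeFactors \ G).filter (fun p => S (k.factorization p)), p := by
  rw [radG, primeFactors_part G S k hk]
  refine prod_congr ?_ fun _ _ => rfl
  ext p
  simp only [mem_sdiff, mem_filter]
  tauto

theorem radG_pos (G : Finset ℕ) (k : ℕ) : 0 < radG G k :=
  prod_pos fun _ hp => (Nat.prime_of_mem_primeFactors (mem_sdiff.mp hp).1).pos

theorem radG_dvd (G : Finset ℕ) (k : ℕ) : radG G k ∣ k :=
  dvd_trans (prod_dvd_prod_of_subset _ _ _ sdiff_subset) (Nat.prod_primeFactors_dvd k)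

/-- the target `√k (k/rad*)^(-4/9)` -/
noncomputable def Phi (G : Finset ℕ) (k : ℕ) : ℝ :=
  Real.sqrt k * ((k : ℝ) / radG G k) ^ (-(4 / 9) : ℝ)

def condS (G : Finset ℕ) (S : ℕ → Prop) (k : ℕ) : Prop :=
  (radG G (part G S k) : ℝ) * max 1 (Real.sqrt k / part G S k) ≤ Phi G k

def condJ (G : Finset ℕ) (j : ℕ) (k : ℕ) : Prop :=
  (radG G (part G (fun b => ¬ j ∣ b) k) : ℝ) ≤ Phi G k

/-- the types -/
def Styp (i a : ℕ) : ℕ → Prop :=
  if i = 0 then (fun b => a < b) else if i = 1 then (fun b => b = 2)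
    else if i = 2 then (fun b => b = 3) else (fun b => b = 2 ∨ 4 ≤ b)

theorem log_Phi (G : Finset ℕ) (k : ℕ) (hk : k ≠ 0) :
    Phi G k = Real.exp ((8 * Real.log (radG G k) + Real.log k) / 18) := by
  have hk0 : (0 : ℝ) < k := by exact_mod_cast Nat.pos_of_ne_zero hk
  have hr0 : (0 : ℝ) < radG G k := by exact_mod_cast radG_pos G k
  rw [Phi, Real.sqrt_eq_rpow, Real.rpow_def_of_pos hk0, Real.rpow_def_of_pos (by positivity),
    ← Real.exp_add, Real.log_div hk0.ne' hr0.ne']
  congr 1
  ring

open Classical in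
/-- every `k` has a type -/
theorem exists_cond (G : Finset ℕ) (k M : ℕ) (hk : k ≠ 0) (hM : 4 ≤ M)
    (hMk : ∀ p ∈ k.primeFactors, k.factorization p ≤ M) :
    (∃ i ∈ range 4, ∃ a ∈ Icc 1 M, condS G (Styp i a) k) ∨ (∃ j ∈ Icc 2 M, condJ G j k) := by
  have hk0 : (0 : ℝ) < k := by exact_mod_cast Nat.pos_of_ne_zero hk
  set P := k.primeFactors \ G with hP
  set γ : ℕ → ℝ := fun b => ∑ p ∈ P, if k.factorization p = b then Real.log p else 0 with hγ
  have hlogp : ∀ p ∈ P, 0 ≤ Real.log (p : ℝ) := fun p hp =>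
    Real.log_nonneg (by exact_mod_cast (Nat.prime_of_mem_primeFactors (mem_sdiff.mp hp).1).one_le)
  have hγ0 : ∀ b, 0 ≤ γ b := fun b => sum_nonneg fun p hp => by
    split_ifs; exacts [hlogp p hp, le_rfl]
  have hv : ∀ p ∈ P, k.factorization p ∈ Icc 1 M := by
    intro p hp
    have hp1 := (mem_sdiff.mp hp).1
    refine mem_Icc.mpr ⟨?_, hMk p hp1⟩
    have := (Nat.support_factorization k) ▸ hp1
    exact Nat.one_le_iff_ne_zero.mpr (Finsupp.mem_support_iff.mp this)
  -- interchange
  have hswap : ∀ (S : ℕ → Prop) (f : ℕ → ℝ), (∑ b ∈ Icc 1 M, if S b then f b * γ b else 0) =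
      ∑ p ∈ P, if S (k.factorization p) then f (k.factorization p) * Real.log p else 0 := by
    intro S f
    have h1 : ∀ b ∈ Icc 1 M, (if S b then f b * γ b else 0) =
        ∑ p ∈ P, if k.factorization p = b then (if S b then f b * Real.log p else 0) else 0 := by
      intro b _
      by_cases hS : S b
      · rw [if_pos hS, hγ, mul_sum]
        refine sum_congr rfl fun p _ => ?_
        by_cases h : k.factorization p = b <;> simp [h, hS]
      · simp [hS]
    rw [sum_congr rfl h1, sum_comm]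
    refine sum_congr rfl fun p hp => ?_
    rw [sum_ite_eq (Icc 1 M) (k.factorization p) (fun b => if S b then f b * Real.log p else 0),
      if_pos (hv p hp)]
  have hswap1 : ∀ (S : ℕ → Prop), (∑ b ∈ Icc 1 M, if S b then γ b else 0) =
      ∑ p ∈ P, if S (k.factorization p) then Real.log p else 0 := by
    intro S
    have := hswap S (fun _ => 1)
    simpa using this
  -- logarithms
  have hlogrp : ∀ S : ℕ → Prop, Real.log (radG G (part G S k)) =
      ∑ p ∈ P, if S (k.factorization p) then Real.log p else 0 := by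
    intro S
    rw [radG_part G S k hk]
    push_cast
    rw [Real.log_prod, sum_filter]
    intro p hp
    have := (Nat.prime_of_mem_primeFactors (mem_sdiff.mp (mem_filter.mp hp).1).1).pos
    exact_mod_cast this.ne'
  set g : ℝ := ∑ p ∈ k.primeFactors.filter (fun p => p ∈ G),
    (k.factorization p : ℝ) * Real.log p with hg
  have hg0 : 0 ≤ g := sum_nonneg fun p hp => mul_nonneg (Nat.cast_nonneg _)
    (Real.log_nonneg (by
      exact_mod_cast (Nat.prime_of_mem_primeFactors (mem_filter.mp hp).1).one_le))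
  have hlogpart : ∀ S : ℕ → Prop, Real.log (part G S k) =
      g + ∑ p ∈ P, if S (k.factorization p) then (k.factorization p : ℝ) * Real.log p else 0 := by
    intro S
    rw [part]
    push_cast
    rw [Real.log_prod]
    · have hdis : k.primeFactors.filter (fun p => p ∈ G ∨ S (k.factorization p)) =
          (k.primeFactors.filter (fun p => p ∈ G)) ∪ (P.filter (fun p => S (k.factorization p))) := by
        ext p; simp only [hP, mem_filter, mem_union, mem_sdiff]; tauto
      rw [hdis, sum_union]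
      · rw [hg, sum_filter (s := P)]
        congr 1
        · exact sum_congr rfl fun p _ => by rw [Real.log_pow]
        · exact sum_congr rfl fun p _ => by rw [Real.log_pow]
      · rw [disjoint_left]
        intro p h1 h2
        exact (mem_sdiff.mp (mem_filter.mp h2).1).2 (mem_filter.mp h1).2
    · intro p hp
      have := (Nat.prime_of_mem_primeFactors (mem_filter.mp hp).1).pos
      have : (0 : ℝ) < (p : ℝ) ^ k.factorization p := by positivity
      exact this.ne'
  have hpartTrue : part G (fun _ => True) k = k := by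
    have h : (∏ p ∈ k.primeFactors, p ^ k.factorization p) = k := by
      have := Nat.prod_factorization_pow_eq_self hk
      rwa [Finsupp.prod, Nat.support_factorization] at this
    rw [part]
    simpa using h
  have hlogk : Real.log k = g + ∑ p ∈ P, (k.factorization p : ℝ) * Real.log p := by
    have := hlogpart (fun _ => True)
    rw [hpartTrue] at this
    simpa using this
  have hlogr : Real.log (radG G k) = ∑ p ∈ P, Real.log p := by
    have := hlogrp (fun _ => True)
    rw [hpartTrue] at this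
    simpa using this
  have hT : Real.log (radG G k) = ∑ b ∈ Icc 1 M, γ b := by
    have := hswap1 (fun _ => True)
    simp only [if_true] at this
    rw [this, hlogr]
  have hL : Real.log k = ∑ b ∈ Icc 1 M, (b : ℝ) * γ b + g := by
    have := hswap (fun _ => True) (fun b => (b : ℝ))
    simp only [if_true] at this
    rw [this, hlogk]; ring
  have key := exists_type M hM γ hγ0 g (Real.log k) (Real.log (radG G k)) hg0 hT hL
  -- translation of an S-inequality
  have hS : ∀ S : ℕ → Prop, (∑ b ∈ Icc 1 M, if S b then γ b else 0) +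
      max 0 (Real.log k / 2 - g - ∑ b ∈ Icc 1 M, if S b then (b : ℝ) * γ b else 0) ≤
        (8 * Real.log (radG G k) + Real.log k) / 18 → condS G S k := by
    intro S hS
    rw [hswap1 S, hswap S (fun b => (b : ℝ)), ← hlogrp S] at hS
    have hp := hlogpart S
    have hp0 : (0 : ℝ) < part G S k := by exact_mod_cast part_pos G S k hk
    have hr0 : (0 : ℝ) < radG G (part G S k) := by exact_mod_cast radG_pos G _
    have hsq : Real.log (Real.sqrt k / part G S k) =
        Real.log k / 2 - g -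
          ∑ p ∈ P, if S (k.factorization p) then (k.factorization p : ℝ) * Real.log p else 0 := by
      rw [Real.log_div (by positivity) hp0.ne', Real.log_sqrt hk0.le, hp]
      ring
    rw [← hsq] at hS
    rw [condS, log_Phi G k hk]
    have hmax : max 1 (Real.sqrt k / part G S k) =
        Real.exp (max 0 (Real.log (Real.sqrt k / part G S k))) := by
      rcases le_total 1 (Real.sqrt k / part G S k) with h | h
      · rw [max_eq_right h, max_eq_right (Real.log_nonneg h), Real.exp_log (by positivity)]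
      · rw [max_eq_left h, max_eq_left (Real.log_nonpos (by positivity) h), Real.exp_zero]
    rw [hmax, ← Real.exp_log hr0, ← Real.exp_add]
    exact Real.exp_le_exp.mpr hS
  have h4 : 4 ∈ Icc 1 M := mem_Icc.mpr ⟨by norm_num, hM⟩
  rcases key with ⟨a, ha, h⟩ | h | h | h | ⟨j, hj, h⟩
  · exact Or.inl ⟨0, by simp, a, ha, hS (fun b => a < b) (by convert h)⟩
  · exact Or.inl ⟨1, by simp, 4, h4, hS (fun b => b = 2) (by convert h)⟩
  · exact Or.inl ⟨2, by simp, 4, h4, hS (fun b => b = 3) (by convert h)⟩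
  · exact Or.inl ⟨3, by simp, 4, h4, hS (fun b => b = 2 ∨ 4 ≤ b) (by convert h)⟩
  · refine Or.inr ⟨j, hj, ?_⟩
    rw [condJ, log_Phi G k hk]
    have hr0 : (0 : ℝ) < radG G (part G (fun b => ¬ j ∣ b) k) := by exact_mod_cast radG_pos G _
    have h' : Real.log (radG G (part G (fun b => ¬ j ∣ b) k)) ≤
        (8 * Real.log (radG G k) + Real.log k) / 18 := by
      rw [hlogrp (fun b => ¬ j ∣ b), ← hswap1 (fun b => ¬ j ∣ b)]
      convert h
    rw [← Real.exp_log hr0]
    exact Real.exp_le_exp.mpr h'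

/-- `k / part` is a perfect `j`-th power for `S = (¬ j ∣ ·)`. -/
theorem exists_pow (G : Finset ℕ) (j k : ℕ) (hk : k ≠ 0) :
    ∃ t : ℕ, k = part G (fun b => ¬ j ∣ b) k * t ^ j := by
  classical
  have h : (∏ p ∈ k.primeFactors, p ^ k.factorization p) = k := by
    have := Nat.prod_factorization_pow_eq_self hk
    rwa [Finsupp.prod, Nat.support_factorization] at this
  refine ⟨∏ p ∈ k.primeFactors.filter (fun p => ¬ (p ∈ G ∨ ¬ j ∣ k.factorization p)),
    p ^ (k.factorization p / j), ?_⟩
  rw [← prod_pow, part]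
  conv_lhs => rw [← h]
  rw [← prod_filter_mul_prod_filter_not k.primeFactors
    (fun p => p ∈ G ∨ ¬ j ∣ k.factorization p)]
  congr 1
  · exact prod_congr (by ext; simp only [mem_filter]) fun _ _ => rfl
  refine prod_congr rfl fun p hp => ?_
  have hd : j ∣ k.factorization p := by
    have := (mem_filter.mp hp).2
    push Not at this
    exact this.2
  rw [← pow_mul, Nat.div_mul_cancel hd]

/-- two `k` in a short interval with the same part are equal -/
theorem unique_pow (Y : ℝ) (a L : ℕ) (hY : 0 < Y) (ha : Y ≤ a) (haL : (a : ℝ) + L ≤ 4 * Y)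
    (hL : (L : ℝ) ≤ Y ^ (1 / 2 : ℝ)) (j : ℕ) (hj : 2 ≤ j) (h t t' : ℕ)
    (h1 : h * t ^ j ∈ Ico a (a + L)) (h2 : h * t' ^ j ∈ Ico a (a + L)) : t = t' := by
  have main : ∀ t t' : ℕ, h * t ^ j ∈ Ico a (a + L) → h * t' ^ j ∈ Ico a (a + L) → ¬ t < t' := by
    intro t t' h1 h2 hlt
    rw [mem_Ico] at h1 h2
    have hsq : Y ^ (1 / 2 : ℝ) = Real.sqrt Y := by rw [Real.sqrt_eq_rpow]
    rw [hsq] at hL
    have hs0 : 0 < Real.sqrt Y := Real.sqrt_pos.mpr hY
    have hss : Real.sqrt Y * Real.sqrt Y = Y := Real.mul_self_sqrt hY.le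
    have h1a : (a : ℝ) ≤ h * (t : ℝ) ^ j := by exact_mod_cast h1.1
    have hk0 : (0 : ℝ) < h * (t : ℝ) ^ j := lt_of_lt_of_le hY (ha.trans h1a)
    have hh0 : (0 : ℝ) < h := by
      rcases Nat.eq_zero_or_pos h with h0 | h0
      · rw [h0] at hk0; simp at hk0
      · exact_mod_cast h0
    have hh1 : (1 : ℝ) ≤ h := by exact_mod_cast (Nat.cast_pos.mp hh0)
    have ht0 : (0 : ℝ) < t := by
      rcases Nat.eq_zero_or_pos t with h0 | h0
      · rw [h0] at hk0
        have hj0 : j ≠ 0 := by omega
        simp [hj0] at hk0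
      · exact_mod_cast h0
    have h2b : (h : ℝ) * (t' : ℝ) ^ j < a + L := by exact_mod_cast h2.2
    -- difference
    have hpow : (t : ℝ) ^ j + 2 * (t : ℝ) ^ (j - 1) ≤ (t' : ℝ) ^ j := by
      have hle : (t : ℝ) + 1 ≤ t' := by exact_mod_cast hlt
      have h3 : ((t : ℝ) + 1) ^ j ≤ (t' : ℝ) ^ j := pow_le_pow_left₀ (by positivity) hle j
      have h4 : (t : ℝ) ^ j + 2 * (t : ℝ) ^ (j - 1) ≤ ((t : ℝ) + 1) ^ j := by
        obtain ⟨i, rfl⟩ : ∃ i, j = i + 2 := ⟨j - 2, by omega⟩
        have h5 : (t : ℝ) ^ i ≤ ((t : ℝ) + 1) ^ i := pow_le_pow_left₀ ht0.le (by linarith) i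
        have h6 : i + 2 - 1 = i + 1 := by omega
        rw [h6]
        calc (t : ℝ) ^ (i + 2) + 2 * (t : ℝ) ^ (i + 1)
            = (t : ℝ) ^ i * ((t : ℝ) ^ 2 + 2 * t) := by ring
          _ ≤ ((t : ℝ) + 1) ^ i * ((t : ℝ) ^ 2 + 2 * t) :=
              mul_le_mul_of_nonneg_right h5 (by positivity)
          _ ≤ ((t : ℝ) + 1) ^ i * ((t : ℝ) + 1) ^ 2 :=
              mul_le_mul_of_nonneg_left (by nlinarith) (by positivity)
          _ = ((t : ℝ) + 1) ^ (i + 2) := by ring
      exact h4.trans h3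
    have hdiff : (h : ℝ) * (2 * (t : ℝ) ^ (j - 1)) < L := by
      have := mul_le_mul_of_nonneg_left hpow hh0.le
      nlinarith
    have hts : 2 * Real.sqrt Y < t := by
      -- h t^j >= Y, h 2 t^(j-1) < sqrt Y
      have hj1 : (t : ℝ) ^ j = t * (t : ℝ) ^ (j - 1) := by
        rw [← pow_succ']
        congr 1; omega
      rw [hj1] at h1a
      by_contra hle
      have hle' : (t : ℝ) ≤ 2 * Real.sqrt Y := le_of_not_gt hle
      have hp0 : 0 ≤ (h : ℝ) * (t : ℝ) ^ (j - 1) := by positivity
      have h7 : (h : ℝ) * (t * (t : ℝ) ^ (j - 1)) ≤ 2 * Real.sqrt Y * (h * (t : ℝ) ^ (j - 1)) := by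
        nlinarith
      have h8 : 2 * (h * (t : ℝ) ^ (j - 1)) < Real.sqrt Y := by nlinarith
      have h9 : 2 * Real.sqrt Y * (h * (t : ℝ) ^ (j - 1)) < Y := by
        calc 2 * Real.sqrt Y * (h * (t : ℝ) ^ (j - 1))
            = Real.sqrt Y * (2 * (h * (t : ℝ) ^ (j - 1))) := by ring
          _ < Real.sqrt Y * Real.sqrt Y := mul_lt_mul_of_pos_left h8 hs0
          _ = Y := hss
      linarith
    have ht2 : (t : ℝ) ^ 2 ≤ (h : ℝ) * (t : ℝ) ^ j := by
      have ht1 : (1 : ℝ) ≤ t := by exact_mod_cast (Nat.cast_pos.mp ht0)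
      have h10 : (t : ℝ) ^ 2 ≤ (t : ℝ) ^ j := pow_le_pow_right₀ ht1 hj
      nlinarith [pow_pos ht0 j]
    have h1b : (h : ℝ) * (t : ℝ) ^ j < a + L := by exact_mod_cast h1.2
    have : (t : ℝ) ^ 2 < 4 * Y := by linarith
    nlinarith
  rcases lt_trichotomy t t' with hlt | heq | hgt
  · exact absurd hlt (main t t' h1 h2)
  · exact heq
  · exact absurd hgt (main t' t h2 h1)

/-- weight -/
noncomputable def wt (δ : ℝ) (G : Finset ℕ) (k : ℕ) : ℝ := ((k : ℝ) / radG G k) ^ (1 / 2 - δ)

theorem wt_nonneg (δ : ℝ) (G : Finset ℕ) (k : ℕ) : 0 ≤ wt δ G k := by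
  rw [wt]; positivity

theorem Phi_mul_wt (δ : ℝ) (hδ : 1 / 18 < δ) (c' Y : ℝ) (hY : 1 ≤ Y) (G : Finset ℕ)
    (k : ℕ) (hk : k ≠ 0) (hk4 : (k : ℝ) ≤ 4 * Y) (hth : Y ^ c' ≤ (k : ℝ) / radG G k) :
    Phi G k * wt δ G k ≤ 2 * Y ^ (1 / 2 - c' * (δ - 1 / 18)) := by
  have hk0 : (0 : ℝ) < k := by exact_mod_cast Nat.pos_of_ne_zero hk
  have hr0 : (0 : ℝ) < radG G k := by exact_mod_cast radG_pos G k
  set q := (k : ℝ) / radG G k with hq
  have hq0 : 0 < q := by positivity
  have hY0 : 0 < Y := by linarith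
  have h1 : Phi G k * wt δ G k = Real.sqrt k * q ^ (-(δ - 1 / 18)) := by
    rw [Phi, wt, ← hq, mul_assoc, ← Real.rpow_add hq0]
    congr 2; ring
  have h2 : Real.sqrt k ≤ 2 * Y ^ (1 / 2 : ℝ) := by
    rw [← Real.sqrt_eq_rpow]
    calc Real.sqrt k ≤ Real.sqrt (4 * Y) := Real.sqrt_le_sqrt hk4
      _ = 2 * Real.sqrt Y := by
        rw [Real.sqrt_mul (by norm_num)]
        congr 1
        rw [show (4 : ℝ) = 2 ^ 2 by norm_num]
        exact Real.sqrt_sq (by norm_num)
  have h3 : q ^ (-(δ - 1 / 18)) ≤ Y ^ (-(c' * (δ - 1 / 18))) := by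
    calc q ^ (-(δ - 1 / 18)) ≤ (Y ^ c') ^ (-(δ - 1 / 18)) :=
          Real.rpow_le_rpow_of_nonpos (by positivity) hth (by linarith)
      _ = Y ^ (-(c' * (δ - 1 / 18))) := by
          rw [← Real.rpow_mul hY0.le]; congr 1; ring
  rw [h1]
  calc Real.sqrt k * q ^ (-(δ - 1 / 18))
      ≤ (2 * Y ^ (1 / 2 : ℝ)) * Y ^ (-(c' * (δ - 1 / 18))) :=
        mul_le_mul h2 h3 (by positivity) (by positivity)
    _ = 2 * Y ^ (1 / 2 - c' * (δ - 1 / 18)) := by
        rw [mul_assoc, ← Real.rpow_add hY0]; congr 2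

/-- number of multiples of `h` in an interval -/
theorem card_multiples_le (a L h : ℕ) (hh : 0 < h) :
    (((Ico a (a + L)).filter (fun k => h ∣ k)).card : ℝ) ≤ (L : ℝ) / h + 1 := by
  have h1 : ((Ico a (a + L)).filter (fun k => h ∣ k)).card ≤ L / h + 1 := by
    -- the map k ↦ k / h is injective on multiples, with image in a short interval
    have hinj : Set.InjOn (fun k => k / h) ((Ico a (a + L)).filter (fun k => h ∣ k) : Set ℕ) := by
      intro x hx y hy hxy
      have hx' := (mem_filter.mp (mem_coe.mp hx)).2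
      have hy' := (mem_filter.mp (mem_coe.mp hy)).2
      have : x / h * h = y / h * h := by simp only at hxy; rw [hxy]
      rwa [Nat.div_mul_cancel hx', Nat.div_mul_cancel hy'] at this
    rw [← card_image_of_injOn hinj]
    rcases (((Ico a (a + L)).filter (fun k => h ∣ k)).image (fun k => k / h)).eq_empty_or_nonempty
      with he | hne
    · rw [he]; simp
    · set I := ((Ico a (a + L)).filter (fun k => h ∣ k)).image (fun k => k / h) with hI
      have hmin := I.min'_mem hne
      have hsub : I ⊆ Icc (I.min' hne) (I.min' hne + L / h) := by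
        intro z hz
        refine mem_Icc.mpr ⟨I.min'_le z hz, ?_⟩
        obtain ⟨k, hk, rfl⟩ := mem_image.mp hz
        obtain ⟨k0, hk0, hk0e⟩ := mem_image.mp hmin
        have hk1 := mem_filter.mp hk
        have hk2 := mem_filter.mp hk0
        rw [← hk0e]
        obtain ⟨u, hu⟩ := hk1.2
        obtain ⟨u0, hu0⟩ := hk2.2
        have hb1 := mem_Ico.mp hk1.1
        have hb2 := mem_Ico.mp hk2.1
        rw [hu, hu0, Nat.mul_div_cancel_left _ hh, Nat.mul_div_cancel_left _ hh]
        have : h * u < h * u0 + L := by rw [← hu, ← hu0]; omega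
        by_contra hlt
        push Not at hlt
        have h3 : L / h + 1 + u0 ≤ u := by omega
        have h4 : h * (L / h + 1 + u0) ≤ h * u := Nat.mul_le_mul_left h h3
        have h5 : L < h * (L / h + 1) := by
          have := Nat.lt_mul_div_succ L hh
          simpa using this
        have h6 : h * (L / h + 1 + u0) = h * (L / h + 1) + h * u0 := by ring
        omega
      calc I.card ≤ (Icc (I.min' hne) (I.min' hne + L / h)).card := card_le_card hsub
        _ = L / h + 1 := by
          rw [Nat.card_Icc]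
          generalize L / h = z
          omega
  calc (((Ico a (a + L)).filter (fun k => h ∣ k)).card : ℝ) ≤ ((L / h + 1 : ℕ) : ℝ) := by
        exact_mod_cast h1
    _ ≤ (L : ℝ) / h + 1 := by
        push_cast
        have := @Nat.cast_div_le ℝ _ _ _ L h
        linarith

end Pool.Agent.Helper14.KSP
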