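import Mathlib

/-! The exponent inequality behind the power lemma of project KS (MP_768c9c). -/

set_option autoImplicit false

open Finset

namespace Pool.Agent.Helper14.KSP

theorem sum_Icc_split (M : ℕ) (hM : 4 ≤ M) (f : ℕ → ℝ) :
    ∑ b ∈ Icc 1 M, f b = f 1 + f 2 + f 3 + ∑ b ∈ Icc 4 M, f b := by
  have h1 : Icc 1 M = insert 1 (insert 2 (insert 3 (Icc 4 M))) := by
    ext b; simp only [mem_Icc, mem_insert]; omega
  rw [h1, sum_insert (by simp), sum_insert (by simp), sum_insert (by simp)]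
  ring

open Classical in
/-- The abstract inequality. `γ b` = (log of the) product of the non-given primes of exponent
exactly `b`, `g` the given part, `L` the total. -/
theorem exists_type (M : ℕ) (hM : 4 ≤ M) (γ : ℕ → ℝ) (hγ : ∀ b, 0 ≤ γ b) (g L T : ℝ) (hg : 0 ≤ g)
    (hT : T = ∑ b ∈ Icc 1 M, γ b) (hL : L = ∑ b ∈ Icc 1 M, (b : ℝ) * γ b + g) :
    (∃ a ∈ Icc 1 M, (∑ b ∈ Icc 1 M, if a < b then γ b else 0) +
        max 0 (L / 2 - g - ∑ b ∈ Icc 1 M, if a < b then (b : ℝ) * γ b else 0) ≤ (8 * T + L) / 18) ∨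
    ((∑ b ∈ Icc 1 M, if b = 2 then γ b else 0) +
        max 0 (L / 2 - g - ∑ b ∈ Icc 1 M, if b = 2 then (b : ℝ) * γ b else 0) ≤ (8 * T + L) / 18) ∨
    ((∑ b ∈ Icc 1 M, if b = 3 then γ b else 0) +
        max 0 (L / 2 - g - ∑ b ∈ Icc 1 M, if b = 3 then (b : ℝ) * γ b else 0) ≤ (8 * T + L) / 18) ∨
    ((∑ b ∈ Icc 1 M, if (b = 2 ∨ 4 ≤ b) then γ b else 0) +
        max 0 (L / 2 - g - ∑ b ∈ Icc 1 M, if (b = 2 ∨ 4 ≤ b) then (b : ℝ) * γ b else 0)
          ≤ (8 * T + L) / 18) ∨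
    (∃ j ∈ Icc 2 M, (∑ b ∈ Icc 1 M, if ¬ j ∣ b then γ b else 0) ≤ (8 * T + L) / 18) := by
  -- basic quantities
  set e := ∑ b ∈ Icc 4 M, γ b with he
  set we := ∑ b ∈ Icc 4 M, (b : ℝ) * γ b with hwe
  set ev := ∑ b ∈ Icc 4 M, (if 2 ∣ b then γ b else 0) with hev
  have hTs : T = γ 1 + γ 2 + γ 3 + e := by rw [hT, sum_Icc_split M hM]
  have hLs : L = γ 1 + 2 * γ 2 + 3 * γ 3 + we + g := by
    rw [hL, sum_Icc_split M hM]; push_cast; ring
  have he0 : 0 ≤ e := sum_nonneg fun b _ => hγ b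
  have hev0 : 0 ≤ ev := sum_nonneg fun b _ => by split_ifs; exacts [hγ b, le_rfl]
  have hwe4 : 4 * e ≤ we := by
    rw [he, hwe, mul_sum]
    refine sum_le_sum fun b hb => ?_
    have : (4 : ℝ) ≤ b := by exact_mod_cast (mem_Icc.mp hb).1
    exact mul_le_mul_of_nonneg_right this (hγ b)
  have hodd : 4 * (e - ev) ≤ we - e := by
    rw [he, hwe, hev, ← sum_sub_distrib, ← sum_sub_distrib, mul_sum]
    refine sum_le_sum fun b hb => ?_
    have hb4 := (mem_Icc.mp hb).1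
    by_cases h2 : 2 ∣ b
    · rw [if_pos h2]
      have : (4 : ℝ) ≤ b := by exact_mod_cast hb4
      nlinarith [hγ b]
    · rw [if_neg h2]
      have h5 : 5 ≤ b := by
        rcases Nat.lt_or_ge 4 b with h | h
        · exact h
        · exfalso; apply h2; have : b = 4 := le_antisymm h hb4
          rw [this]; norm_num
      have : (5 : ℝ) ≤ b := by exact_mod_cast h5
      nlinarith [hγ b]
  have h1 := hγ 1
  have h2 := hγ 2
  have h3 := hγ 3
  have hV : 0 ≤ L - T := by rw [hTs, hLs]; linarith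
  -- the case of a large divisor class
  by_cases hA : ∃ j ∈ Icc 2 M, (10 * T - L) / 18 ≤ ∑ b ∈ Icc 1 M, if j ∣ b then γ b else 0
  · obtain ⟨j, hj, hjm⟩ := hA
    refine Or.inr (Or.inr (Or.inr (Or.inr ⟨j, hj, ?_⟩)))
    have hs : (∑ b ∈ Icc 1 M, if ¬ j ∣ b then γ b else 0) +
        (∑ b ∈ Icc 1 M, if j ∣ b then γ b else 0) = T := by
      rw [hT, ← sum_add_distrib]
      refine sum_congr rfl fun b _ => ?_
      by_cases h : j ∣ b <;> simp [h]
    linarith
  have hA' : ∀ j ∈ Icc 2 M, (∑ b ∈ Icc 1 M, if j ∣ b then γ b else 0) < (10 * T - L) / 18 :=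
    fun j hj => lt_of_not_ge fun h => hA ⟨j, hj, h⟩
  have hA1 : ∀ j ∈ Icc 2 M, γ j < (10 * T - L) / 18 := by
    intro j hj
    refine lt_of_le_of_lt ?_ (hA' j hj)
    have hj1 : j ∈ Icc 1 M := mem_Icc.mpr ⟨by have := (mem_Icc.mp hj).1; omega, (mem_Icc.mp hj).2⟩
    have := single_le_sum (f := fun b => if j ∣ b then γ b else 0)
      (fun b _ => by split_ifs; exacts [hγ b, le_rfl]) hj1
    simpa using this
  have hev2 : γ 2 + ev < (10 * T - L) / 18 := by
    have h := hA' 2 (mem_Icc.mpr ⟨le_rfl, by omega⟩)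
    rw [sum_Icc_split M hM] at h
    norm_num at h
    linarith
  -- tail sums
  have tail1 : (∑ b ∈ Icc 1 M, if 1 < b then γ b else 0) = γ 2 + γ 3 + e := by
    rw [sum_Icc_split M hM, he]
    norm_num
    refine sum_congr rfl fun b hb => if_pos (by have := (mem_Icc.mp hb).1; omega)
  have wtail1 : (∑ b ∈ Icc 1 M, if 1 < b then (b : ℝ) * γ b else 0) =
      2 * γ 2 + 3 * γ 3 + we := by
    rw [sum_Icc_split M hM, hwe]
    norm_num
    refine sum_congr rfl fun b hb => if_pos (by have := (mem_Icc.mp hb).1; omega)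
  by_cases hB : (10 * T - L) / 18 ≤ γ 1
  · refine Or.inl ⟨1, mem_Icc.mpr ⟨le_rfl, by omega⟩, ?_⟩
    rw [tail1, wtail1]
    rcases le_total (L / 2) (γ 1) with h | h
    · rw [max_eq_right (by linarith)]; linarith
    · rw [max_eq_left (by linarith)]; linarith
  have hB' : γ 1 < (10 * T - L) / 18 := lt_of_not_ge hB
  -- the critical exponent
  have hex : ∃ a, (10 * T - L) / 18 ≤ ∑ b ∈ Icc 1 a, γ b := ⟨M, by rw [← hT]; linarith⟩
  set a := Nat.find hex with ha
  have ha1 : (10 * T - L) / 18 ≤ ∑ b ∈ Icc 1 a, γ b := Nat.find_spec hex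
  have ha2 : ∀ c < a, ∑ b ∈ Icc 1 c, γ b < (10 * T - L) / 18 :=
    fun c hc => lt_of_not_ge (Nat.find_min hex hc)
  have haM : a ≤ M := Nat.find_min' hex (by rw [← hT]; linarith)
  have ha0 : 2 ≤ a := by
    by_contra hlt
    have h01 : a = 0 ∨ a = 1 := by omega
    rcases h01 with h | h
    · rw [h] at ha1
      simp at ha1
      linarith
    · rw [h] at ha1
      simp at ha1
      linarith
  have hsuccG : ∀ c : ℕ, 1 ≤ c → ∑ b ∈ Icc 1 c, γ b = ∑ b ∈ Icc 1 (c - 1), γ b + γ c := by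
    intro c hc
    obtain ⟨c', rfl⟩ : ∃ c', c = c' + 1 := ⟨c - 1, by omega⟩
    rw [Nat.add_sub_cancel, sum_Icc_succ_top (by omega)]
  have hsucc := hsuccG a (by omega)
  have hprev : ∑ b ∈ Icc 1 (a - 1), γ b < (10 * T - L) / 18 := ha2 _ (by omega)
  have hγa : γ a < (10 * T - L) / 18 := hA1 a (mem_Icc.mpr ⟨ha0, haM⟩)
  -- tail beyond a
  set E := ∑ b ∈ Icc 1 M, (if a < b then γ b else 0) with hE
  set WE := ∑ b ∈ Icc 1 M, (if a < b then (b : ℝ) * γ b else 0) with hWE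
  have hEs : ∑ b ∈ Icc 1 a, γ b + E = T := by
    have hsub : ∑ b ∈ Icc 1 a, γ b = ∑ b ∈ Icc 1 M, (if b ≤ a then γ b else 0) := by
      rw [← sum_filter]
      refine sum_congr ?_ fun _ _ => rfl
      ext b; simp only [mem_Icc, mem_filter]; omega
    rw [hsub, hE, hT, ← sum_add_distrib]
    refine sum_congr rfl fun b _ => ?_
    by_cases h : b ≤ a
    · rw [if_pos h, if_neg (by omega)]; ring
    · rw [if_neg h, if_pos (by omega)]; ring
  have hE9 : (L - T) / 9 < E := by linarith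
  have hWEE : ((a : ℝ) + 1) * E ≤ WE := by
    rw [hE, hWE, mul_sum]
    refine sum_le_sum fun b _ => ?_
    by_cases h : a < b
    · rw [if_pos h, if_pos h]
      have : (a : ℝ) + 1 ≤ b := by exact_mod_cast h
      exact mul_le_mul_of_nonneg_right this (hγ b)
    · rw [if_neg h, if_neg h]; simp
  have hE0 : 0 ≤ E := sum_nonneg fun b _ => by split_ifs; exacts [hγ b, le_rfl]
  by_cases hC : L / 2 ≤ g + WE
  · refine Or.inl ⟨a, mem_Icc.mpr ⟨by omega, haM⟩, ?_⟩
    rw [← hE, ← hWE, max_eq_left (by linarith)]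
    linarith
  have hC' : g + WE < L / 2 := lt_of_not_ge hC
  by_cases ha4 : 4 ≤ a
  · refine Or.inl ⟨a, mem_Icc.mpr ⟨by omega, haM⟩, ?_⟩
    rw [← hE, ← hWE, max_eq_right (by linarith)]
    have : (4 : ℝ) ≤ a := by exact_mod_cast ha4
    nlinarith
  have ha23 : a = 2 ∨ a = 3 := by omega
  have s2 : (∑ b ∈ Icc 1 M, if b = 2 then γ b else 0) = γ 2 := by
    rw [sum_ite_eq' (Icc 1 M) 2 γ, if_pos (mem_Icc.mpr ⟨by norm_num, by omega⟩)]
  have w2 : (∑ b ∈ Icc 1 M, if b = 2 then (b : ℝ) * γ b else 0) = 2 * γ 2 := by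
    rw [sum_ite_eq' (Icc 1 M) 2 (fun b => (b : ℝ) * γ b),
      if_pos (mem_Icc.mpr ⟨by norm_num, by omega⟩)]
    norm_num
  have s3 : (∑ b ∈ Icc 1 M, if b = 3 then γ b else 0) = γ 3 := by
    rw [sum_ite_eq' (Icc 1 M) 3 γ, if_pos (mem_Icc.mpr ⟨by norm_num, by omega⟩)]
  have w3 : (∑ b ∈ Icc 1 M, if b = 3 then (b : ℝ) * γ b else 0) = 3 * γ 3 := by
    rw [sum_ite_eq' (Icc 1 M) 3 (fun b => (b : ℝ) * γ b),
      if_pos (mem_Icc.mpr ⟨by norm_num, by omega⟩)]
    norm_num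
  rcases ha23 with h | h
  · -- a = 2
    have hE2 : E = γ 3 + e := by
      rw [hE, h, sum_Icc_split M hM, he]
      norm_num
      refine sum_congr rfl fun b hb => if_pos (by have := (mem_Icc.mp hb).1; omega)
    have hWE2 : WE = 3 * γ 3 + we := by
      rw [hWE, h, sum_Icc_split M hM, hwe]
      norm_num
      refine sum_congr rfl fun b hb => if_pos (by have := (mem_Icc.mp hb).1; omega)
    by_cases h5 : γ 2 ≤ 5 * (L - T) / 9
    · refine Or.inl ⟨2, mem_Icc.mpr ⟨by norm_num, by omega⟩, ?_⟩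
      rw [← h, ← hE, ← hWE, max_eq_right (by linarith)]
      rw [hE2, hWE2]; linarith
    · have h5' : 5 * (L - T) / 9 < γ 2 := lt_of_not_ge h5
      refine Or.inr (Or.inl ?_)
      rw [s2, w2]
      have hγ2 := hA1 2 (mem_Icc.mpr ⟨le_rfl, by omega⟩)
      rcases le_total (L / 2 - g - 2 * γ 2) 0 with h0 | h0
      · rw [max_eq_left h0]; linarith
      · rw [max_eq_right h0]; linarith
  · -- a = 3
    have hE3 : E = e := by
      rw [hE, h, sum_Icc_split M hM, he]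
      norm_num
      refine sum_congr rfl fun b hb => if_pos (by have := (mem_Icc.mp hb).1; omega)
    have hWE3 : WE = we := by
      rw [hWE, h, sum_Icc_split M hM, hwe]
      norm_num
      refine sum_congr rfl fun b hb => if_pos (by have := (mem_Icc.mp hb).1; omega)
    have h12 : γ 1 + γ 2 < (10 * T - L) / 18 := by
      have := ha2 2 (by omega)
      have h12s : ∑ b ∈ Icc 1 2, γ b = γ 1 + γ 2 := by
        rw [show (2 : ℕ) = 1 + 1 from rfl, sum_Icc_succ_top (by norm_num)]; simp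
      linarith
    have hγ3 := hA1 3 (mem_Icc.mpr ⟨by norm_num, by omega⟩)
    by_cases h5 : γ 2 + 2 * γ 3 ≤ 5 * (L - T) / 9
    · refine Or.inl ⟨3, mem_Icc.mpr ⟨by norm_num, by omega⟩, ?_⟩
      rw [← h, ← hE, ← hWE, max_eq_right (by linarith)]
      rw [hE3, hWE3]; linarith
    have h5' : 5 * (L - T) / 9 < γ 2 + 2 * γ 3 := lt_of_not_ge h5
    by_cases h6 : 2 * (L - T) / 9 ≤ γ 3
    · refine Or.inr (Or.inr (Or.inl ?_))
      rw [s3, w3]
      rcases le_total (L / 2 - g - 3 * γ 3) 0 with h0 | h0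
      · rw [max_eq_left h0]; linarith
      · rw [max_eq_right h0]; linarith
    have h6' : γ 3 < 2 * (L - T) / 9 := lt_of_not_ge h6
    have h13 : (10 * T - L) / 18 ≤ γ 1 + γ 3 := by
      by_contra hlt
      have hlt' : γ 1 + γ 3 < (10 * T - L) / 18 := lt_of_not_ge hlt
      linarith
    refine Or.inr (Or.inr (Or.inr (Or.inl ?_)))
    have s24 : (∑ b ∈ Icc 1 M, if (b = 2 ∨ 4 ≤ b) then γ b else 0) = γ 2 + e := by
      rw [sum_Icc_split M hM, he]
      norm_num
      refine sum_congr rfl fun b hb => if_pos (Or.inr (mem_Icc.mp hb).1)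
    have w24 : (∑ b ∈ Icc 1 M, if (b = 2 ∨ 4 ≤ b) then (b : ℝ) * γ b else 0) = 2 * γ 2 + we := by
      rw [sum_Icc_split M hM, hwe]
      norm_num
      refine sum_congr rfl fun b hb => if_pos (Or.inr (mem_Icc.mp hb).1)
    rw [s24, w24, max_eq_left (by linarith)]
    linarith

end Pool.Agent.Helper14.KSP
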