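import Pool.Agent.Helper14.KSP.Power

/-! The power lemma of project KS (MP_768c9c), final form. -/

set_option autoImplicit false

open Finset

namespace Pool.Agent.Helper14.KSP

open Classical in
theorem sumS (δ : ℝ) (hδ : 1 / 18 < δ) (c' Y : ℝ) (hY : 1 ≤ Y) (a L : ℕ) (ha : Y ≤ a)
    (haL : (a : ℝ) + L ≤ 4 * Y) (hL : (L : ℝ) ≤ Y ^ (1 / 2 : ℝ)) (G : Finset ℕ) (S : ℕ → Prop)
    (A : Finset ℕ) (hA : A ⊆ Ico a (a + L)) (hth : ∀ k ∈ A, Y ^ c' ≤ (k : ℝ) / radG G k) :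
    ∑ k ∈ A.filter (fun k => condS G S k), wt δ G k ≤
      4 * Y ^ (1 / 2 - c' * (δ - 1 / 18)) * ∑ h ∈ Icc 1 (a + L), (1 : ℝ) / radG G h := by
  have hY0 : 0 < Y := by linarith
  have ha0 : 0 < a := by
    rcases Nat.eq_zero_or_pos a with h | h
    · rw [h] at ha; simp at ha; linarith
    · exact h
  set A' := A.filter (fun k => condS G S k) with hA'
  have hk0 : ∀ k ∈ A', k ≠ 0 := fun k hk => by
    have := (mem_Ico.mp (hA (mem_filter.mp hk).1)).1; omega
  have hmap : ∀ k ∈ A', part G S k ∈ Icc 1 (a + L) := by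
    intro k hk
    have h1 := mem_Ico.mp (hA (mem_filter.mp hk).1)
    exact mem_Icc.mpr ⟨part_pos G S k (hk0 k hk),
      (Nat.le_of_dvd (Nat.pos_of_ne_zero (hk0 k hk)) (part_dvd G S k (hk0 k hk))).trans h1.2.le⟩
  rw [← sum_fiberwise_of_maps_to hmap, mul_sum]
  refine sum_le_sum fun h hh => ?_
  have hh1 : 0 < h := (mem_Icc.mp hh).1
  have hh0 : (0 : ℝ) < h := by exact_mod_cast hh1
  have hr0 : (0 : ℝ) < radG G h := by exact_mod_cast radG_pos G h
  set Z := Y ^ (1 / 2 - c' * (δ - 1 / 18)) with hZ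
  have hZ0 : 0 < Z := by positivity
  have hn0 : (0 : ℝ) < (L : ℝ) / h + 1 := by positivity
  have hw : ∀ k ∈ A'.filter (fun k => part G S k = h),
      wt δ G k ≤ 4 * Z * (1 / radG G h) / ((L : ℝ) / h + 1) := by
    intro k hk
    obtain ⟨hk1, hk2⟩ := mem_filter.mp hk
    have hkk := hk0 k hk1
    have hkI := mem_Ico.mp (hA (mem_filter.mp hk1).1)
    have hc : condS G S k := (mem_filter.mp hk1).2
    rw [condS, hk2] at hc
    have hk4 : (k : ℝ) ≤ 4 * Y := by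
      have : (k : ℝ) ≤ a + L := by exact_mod_cast hkI.2.le
      linarith
    have hkY : Y ≤ k := ha.trans (by exact_mod_cast hkI.1)
    have h1 := Phi_mul_wt δ hδ c' Y hY G k hkk hk4 (hth k (mem_filter.mp hk1).1)
    have hLk : (L : ℝ) ≤ Real.sqrt k := by
      refine hL.trans ?_
      rw [← Real.sqrt_eq_rpow]
      exact Real.sqrt_le_sqrt hkY
    have h2 : (L : ℝ) / h + 1 ≤ 2 * max 1 (Real.sqrt k / h) := by
      have h3 : (L : ℝ) / h ≤ Real.sqrt k / h := div_le_div_of_nonneg_right hLk hh0.le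
      have h4 := le_max_left 1 (Real.sqrt k / h)
      have h5 := le_max_right 1 (Real.sqrt k / h)
      linarith
    have hw0 := wt_nonneg δ G k
    rw [le_div_iff₀ hn0]
    rw [mul_one_div, le_div_iff₀ hr0]
    calc wt δ G k * ((L : ℝ) / h + 1) * radG G h
        = (radG G h * ((L : ℝ) / h + 1)) * wt δ G k := by ring
      _ ≤ (radG G h * (2 * max 1 (Real.sqrt k / h))) * wt δ G k :=
          mul_le_mul_of_nonneg_right (mul_le_mul_of_nonneg_left h2 hr0.le) hw0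
      _ = 2 * ((radG G h * max 1 (Real.sqrt k / h)) * wt δ G k) := by ring
      _ ≤ 2 * (Phi G k * wt δ G k) := by
          have := mul_le_mul_of_nonneg_right hc hw0
          linarith
      _ ≤ 4 * Z := by linarith
  have hcard : (((A'.filter (fun k => part G S k = h)).card : ℕ) : ℝ) ≤ (L : ℝ) / h + 1 := by
    refine le_trans ?_ (card_multiples_le a L h hh1)
    refine Nat.cast_le.mpr (card_le_card fun k hk => ?_)
    obtain ⟨hk1, hk2⟩ := mem_filter.mp hk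
    refine mem_filter.mpr ⟨hA (mem_filter.mp hk1).1, ?_⟩
    rw [← hk2]; exact part_dvd G S k (hk0 k hk1)
  calc ∑ k ∈ A'.filter (fun k => part G S k = h), wt δ G k
      ≤ ∑ _k ∈ A'.filter (fun k => part G S k = h),
          4 * Z * (1 / radG G h) / ((L : ℝ) / h + 1) := sum_le_sum hw
    _ = ((A'.filter (fun k => part G S k = h)).card : ℝ) *
          (4 * Z * (1 / radG G h) / ((L : ℝ) / h + 1)) := by rw [sum_const, nsmul_eq_mul]
    _ ≤ ((L : ℝ) / h + 1) * (4 * Z * (1 / radG G h) / ((L : ℝ) / h + 1)) :=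
        mul_le_mul_of_nonneg_right hcard (by positivity)
    _ = 4 * Z * (1 / radG G h) := by field_simp

open Classical in
theorem sumJ (δ : ℝ) (hδ : 1 / 18 < δ) (c' Y : ℝ) (hY : 1 ≤ Y) (a L : ℕ) (ha : Y ≤ a)
    (haL : (a : ℝ) + L ≤ 4 * Y) (hL : (L : ℝ) ≤ Y ^ (1 / 2 : ℝ)) (G : Finset ℕ) (j : ℕ)
    (hj : 2 ≤ j) (A : Finset ℕ) (hA : A ⊆ Ico a (a + L))
    (hth : ∀ k ∈ A, Y ^ c' ≤ (k : ℝ) / radG G k) :
    ∑ k ∈ A.filter (fun k => condJ G j k), wt δ G k ≤
      4 * Y ^ (1 / 2 - c' * (δ - 1 / 18)) * ∑ h ∈ Icc 1 (a + L), (1 : ℝ) / radG G h := by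
  have hY0 : 0 < Y := by linarith
  have ha0 : 0 < a := by
    rcases Nat.eq_zero_or_pos a with h | h
    · rw [h] at ha; simp at ha; linarith
    · exact h
  set A' := A.filter (fun k => condJ G j k) with hA'
  set S : ℕ → Prop := fun b => ¬ j ∣ b with hS
  have hk0 : ∀ k ∈ A', k ≠ 0 := fun k hk => by
    have := (mem_Ico.mp (hA (mem_filter.mp hk).1)).1; omega
  have hmap : ∀ k ∈ A', part G S k ∈ Icc 1 (a + L) := by
    intro k hk
    have h1 := mem_Ico.mp (hA (mem_filter.mp hk).1)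
    exact mem_Icc.mpr ⟨part_pos G S k (hk0 k hk),
      (Nat.le_of_dvd (Nat.pos_of_ne_zero (hk0 k hk)) (part_dvd G S k (hk0 k hk))).trans h1.2.le⟩
  rw [← sum_fiberwise_of_maps_to hmap, mul_sum]
  refine sum_le_sum fun h hh => ?_
  have hr0 : (0 : ℝ) < radG G h := by exact_mod_cast radG_pos G h
  set Z := Y ^ (1 / 2 - c' * (δ - 1 / 18)) with hZ
  have hZ0 : 0 < Z := by positivity
  have hw : ∀ k ∈ A'.filter (fun k => part G S k = h), wt δ G k ≤ 4 * Z * (1 / radG G h) := by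
    intro k hk
    obtain ⟨hk1, hk2⟩ := mem_filter.mp hk
    have hkk := hk0 k hk1
    have hkI := mem_Ico.mp (hA (mem_filter.mp hk1).1)
    have hc : condJ G j k := (mem_filter.mp hk1).2
    rw [condJ] at hc
    change (radG G (part G S k) : ℝ) ≤ Phi G k at hc
    rw [hk2] at hc
    have hk4 : (k : ℝ) ≤ 4 * Y := by
      have : (k : ℝ) ≤ a + L := by exact_mod_cast hkI.2.le
      linarith
    have h1 := Phi_mul_wt δ hδ c' Y hY G k hkk hk4 (hth k (mem_filter.mp hk1).1)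
    have hw0 := wt_nonneg δ G k
    rw [mul_one_div, le_div_iff₀ hr0]
    calc wt δ G k * radG G h = radG G h * wt δ G k := by ring
      _ ≤ Phi G k * wt δ G k := mul_le_mul_of_nonneg_right hc hw0
      _ ≤ 4 * Z := by linarith
  have hcard : (A'.filter (fun k => part G S k = h)).card ≤ 1 := by
    rw [card_le_one]
    intro k hk k' hk'
    obtain ⟨hk1, hk2⟩ := mem_filter.mp hk
    obtain ⟨hk1', hk2'⟩ := mem_filter.mp hk'
    obtain ⟨t, ht⟩ := exists_pow G j k (hk0 k hk1)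
    obtain ⟨t', ht'⟩ := exists_pow G j k' (hk0 k' hk1')
    change k = part G S k * t ^ j at ht
    change k' = part G S k' * t' ^ j at ht'
    rw [hk2] at ht
    rw [hk2'] at ht'
    have hI := hA (mem_filter.mp hk1).1
    have hI' := hA (mem_filter.mp hk1').1
    rw [ht] at hI
    rw [ht'] at hI'
    have := unique_pow Y a L hY0 ha haL hL j hj h t t' hI hI'
    rw [ht, ht', this]
  have hnn : 0 ≤ 4 * Z * (1 / radG G h) := by positivity
  calc ∑ k ∈ A'.filter (fun k => part G S k = h), wt δ G k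
      ≤ ∑ _k ∈ A'.filter (fun k => part G S k = h), 4 * Z * (1 / radG G h) := sum_le_sum hw
    _ = ((A'.filter (fun k => part G S k = h)).card : ℝ) * (4 * Z * (1 / radG G h)) := by
        rw [sum_const, nsmul_eq_mul]
    _ ≤ 1 * (4 * Z * (1 / radG G h)) := mul_le_mul_of_nonneg_right (by exact_mod_cast hcard) hnn
    _ = 4 * Z * (1 / radG G h) := one_mul _

open Classical in
theorem sum_total (δ : ℝ) (hδ : 1 / 18 < δ) (c' Y : ℝ) (hY : 1 ≤ Y) (a L : ℕ) (ha : Y ≤ a)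
    (haL : (a : ℝ) + L ≤ 4 * Y) (hL : (L : ℝ) ≤ Y ^ (1 / 2 : ℝ)) (G : Finset ℕ)
    (A : Finset ℕ) (hA : A ⊆ Ico a (a + L)) (hth : ∀ k ∈ A, Y ^ c' ≤ (k : ℝ) / radG G k) :
    ∑ k ∈ A, wt δ G k ≤ (5 * (Nat.log 2 (a + L) + 4 : ℕ) : ℝ) *
      (4 * Y ^ (1 / 2 - c' * (δ - 1 / 18)) * ∑ h ∈ Icc 1 (a + L), (1 : ℝ) / radG G h) := by
  set M := Nat.log 2 (a + L) + 4 with hM
  set R := 4 * Y ^ (1 / 2 - c' * (δ - 1 / 18)) * ∑ h ∈ Icc 1 (a + L), (1 : ℝ) / radG G h with hR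
  have hR0 : 0 ≤ R := by
    rw [hR]
    refine mul_nonneg (by positivity) (sum_nonneg fun h _ => by positivity)
  have ha0 : 0 < a := by
    rcases Nat.eq_zero_or_pos a with h | h
    · rw [h] at ha; simp at ha; linarith
    · exact h
  have hpt : ∀ k ∈ A, wt δ G k ≤
      (∑ i ∈ range 4, ∑ b ∈ Icc 1 M, if condS G (Styp i b) k then wt δ G k else 0) +
        ∑ j ∈ Icc 2 M, if condJ G j k then wt δ G k else 0 := by
    intro k hk
    have hkI := mem_Ico.mp (hA hk)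
    have hw0 := wt_nonneg δ G k
    have hMk : ∀ p ∈ k.primeFactors, k.factorization p ≤ M := by
      intro p hp
      have hpp := Nat.prime_of_mem_primeFactors hp
      have h1 : 2 ^ k.factorization p ≤ a + L :=
        calc 2 ^ k.factorization p ≤ p ^ k.factorization p := Nat.pow_le_pow_left hpp.two_le _
          _ ≤ k := Nat.le_of_dvd (by omega) (Nat.ordProj_dvd k p)
          _ ≤ a + L := hkI.2.le
      have h2 := Nat.le_log_of_pow_le (by norm_num) h1
      omega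
    have hnnS : ∀ i ∈ range 4, 0 ≤ ∑ b ∈ Icc 1 M, if condS G (Styp i b) k then wt δ G k else 0 :=
      fun i _ => sum_nonneg fun b _ => by split_ifs; exacts [hw0, le_rfl]
    have hnnJ : 0 ≤ ∑ j ∈ Icc 2 M, if condJ G j k then wt δ G k else 0 :=
      sum_nonneg fun b _ => by split_ifs; exacts [hw0, le_rfl]
    rcases exists_cond G k M (by omega) (by omega) hMk with ⟨i, hi, b, hb, h⟩ | ⟨j, hj, h⟩
    · have h1 := single_le_sum (f := fun b => if condS G (Styp i b) k then wt δ G k else 0)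
        (fun b _ => by split_ifs; exacts [hw0, le_rfl]) hb
      rw [if_pos h] at h1
      have h2 := single_le_sum
        (f := fun i => ∑ b ∈ Icc 1 M, if condS G (Styp i b) k then wt δ G k else 0) hnnS hi
      linarith
    · have h1 := single_le_sum (f := fun j => if condJ G j k then wt δ G k else 0)
        (fun b _ => by split_ifs; exacts [hw0, le_rfl]) hj
      rw [if_pos h] at h1
      have h2 := sum_nonneg hnnS
      linarith
  refine (sum_le_sum hpt).trans ?_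
  rw [sum_add_distrib]
  have hS : ∑ k ∈ A, ∑ i ∈ range 4, ∑ b ∈ Icc 1 M,
      (if condS G (Styp i b) k then wt δ G k else 0) ≤ 4 * (M : ℝ) * R := by
    rw [sum_comm]
    have h1 : ∀ i ∈ range 4, ∑ k ∈ A, ∑ b ∈ Icc 1 M,
        (if condS G (Styp i b) k then wt δ G k else 0) ≤ (M : ℝ) * R := by
      intro i _
      rw [sum_comm]
      calc ∑ b ∈ Icc 1 M, ∑ k ∈ A, (if condS G (Styp i b) k then wt δ G k else 0)
          ≤ ∑ _b ∈ Icc 1 M, R := sum_le_sum fun b _ => by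
            rw [← sum_filter]
            exact sumS δ hδ c' Y hY a L ha haL hL G (Styp i b) A hA hth
        _ = (M : ℝ) * R := by rw [sum_const, nsmul_eq_mul, Nat.card_Icc]; simp
    calc ∑ i ∈ range 4, ∑ k ∈ A, ∑ b ∈ Icc 1 M,
          (if condS G (Styp i b) k then wt δ G k else 0) ≤ ∑ _i ∈ range 4, (M : ℝ) * R :=
          sum_le_sum h1
      _ = 4 * (M : ℝ) * R := by rw [sum_const, nsmul_eq_mul, card_range]; push_cast; ring
  have hJ : ∑ k ∈ A, ∑ j ∈ Icc 2 M, (if condJ G j k then wt δ G k else 0) ≤ (M : ℝ) * R := by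
    rw [sum_comm]
    calc ∑ j ∈ Icc 2 M, ∑ k ∈ A, (if condJ G j k then wt δ G k else 0)
        ≤ ∑ _j ∈ Icc 2 M, R := sum_le_sum fun j hj => by
          rw [← sum_filter]
          exact sumJ δ hδ c' Y hY a L ha haL hL G j (mem_Icc.mp hj).1 A hA hth
      _ = ((Icc 2 M).card : ℝ) * R := by rw [sum_const, nsmul_eq_mul]
      _ ≤ (M : ℝ) * R := by
          refine mul_le_mul_of_nonneg_right ?_ hR0
          rw [Nat.card_Icc]
          exact_mod_cast (by omega : M + 1 - 2 ≤ M)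
  calc _ ≤ 4 * (M : ℝ) * R + (M : ℝ) * R := add_le_add hS hJ
    _ = (5 * (M : ℕ) : ℝ) * R := by ring

/-- POWER LEMMA, general form: the set `G` of given primes has at most `B log Y` elements. -/
theorem power_lemma_card (δ : ℝ) (h1 : 1 / 18 < δ) (c' : ℝ) (hc' : 0 < c') (B : ℝ) (hB : 0 < B) :
    ∃ c : ℝ, 0 < c ∧ ∃ Y0 : ℝ, ∀ (Y : ℝ) (a L : ℕ) (G : Finset ℕ), Y0 ≤ Y → Y ≤ a →
      (a : ℝ) + L ≤ 4 * Y → (L : ℝ) ≤ Y ^ (1 / 2 : ℝ) → (G.card : ℝ) ≤ B * Real.log Y →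
      ∑ k ∈ (Ico a (a + L)).filter (fun k : ℕ => Y ^ c' ≤ (k : ℝ) / radG G k),
        ((k : ℝ) / radG G k) ^ (1 / 2 - δ) ≤ Y ^ (1 / 2 - c) := by
  set κ := c' * (δ - 1 / 18) with hκ
  have hκ0 : 0 < κ := mul_pos hc' (by linarith)
  obtain ⟨C, hC, hsum⟩ := sum_inv_radG_le (κ / 4) B (by linarith) hB
  -- constants
  set K1 : ℝ := 5 * (2 / (κ / 4) + 4) with hK1
  set K : ℝ := K1 * 4 * C * (4 : ℝ) ^ (κ / 2) with hK
  have hK10 : 0 < K1 := by positivity
  have hK0 : 0 < K := by positivity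
  have htend : Filter.Tendsto (fun Y : ℝ => Y ^ (κ / 4)) Filter.atTop Filter.atTop :=
    tendsto_rpow_atTop (by linarith)
  obtain ⟨Y1, hY1⟩ := Filter.eventually_atTop.mp (htend.eventually_ge_atTop K)
  refine ⟨κ / 4, by linarith, max 1 Y1, ?_⟩
  intro Y a L G hY0 ha haL hL hG
  have hY : 1 ≤ Y := (le_max_left _ _).trans hY0
  have hYp : 0 < Y := by linarith
  have hKY : K ≤ Y ^ (κ / 4) := hY1 Y ((le_max_right _ _).trans hY0)
  have ha0 : 0 < a := by
    rcases Nat.eq_zero_or_pos a with h | h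
    · rw [h] at ha; simp at ha; linarith
    · exact h
  set N := a + L with hN
  have hN1 : 1 ≤ N := by omega
  have hNp : (0 : ℝ) < N := by exact_mod_cast hN1
  have hN4 : (N : ℝ) ≤ 4 * Y := by rw [hN]; push_cast; exact haL
  have hYN : Y ≤ N := ha.trans (by rw [hN]; push_cast; linarith [Nat.cast_nonneg (α := ℝ) L])
  have hGN : (G.card : ℝ) ≤ B * Real.log N :=
    hG.trans (mul_le_mul_of_nonneg_left (Real.log_le_log hYp hYN) hB.le)
  have hR := hsum N G hN1 hGN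
  have htot := sum_total δ h1 c' Y hY a L ha haL hL G
    ((Ico a (a + L)).filter (fun k : ℕ => Y ^ c' ≤ (k : ℝ) / radG G k)) (filter_subset _ _)
    (fun k hk => (mem_filter.mp hk).2)
  rw [← hN, ← hκ] at htot
  have hone : (1 : ℝ) ≤ (N : ℝ) ^ (κ / 4) := Real.one_le_rpow (by exact_mod_cast hN1) (by linarith)
  have hM : (5 * (Nat.log 2 N + 4 : ℕ) : ℝ) ≤ K1 * (N : ℝ) ^ (κ / 4) := by
    have h2 : ((Nat.log 2 N : ℕ) : ℝ) ≤ 2 * Real.log N := by
      have h3 : 2 ^ Nat.log 2 N ≤ N := Nat.pow_log_le_self 2 (by omega)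
      have h4 : (2 : ℝ) ^ Nat.log 2 N ≤ N := by exact_mod_cast h3
      have h5 := Real.log_le_log (by positivity) h4
      rw [Real.log_pow] at h5
      have h6 : (1 / 2 : ℝ) < Real.log 2 := by have := Real.log_two_gt_d9; linarith
      have h7 : (0 : ℝ) ≤ (Nat.log 2 N : ℕ) := Nat.cast_nonneg _
      nlinarith
    have h8 : Real.log N ≤ (N : ℝ) ^ (κ / 4) / (κ / 4) := Real.log_le_rpow_div hNp.le (by linarith)
    push_cast
    rw [hK1]
    have h9 : 2 * ((N : ℝ) ^ (κ / 4) / (κ / 4)) = 2 / (κ / 4) * (N : ℝ) ^ (κ / 4) := by ring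
    nlinarith
  have hNκ : (N : ℝ) ^ (κ / 4) * (N : ℝ) ^ (κ / 4) ≤ (4 : ℝ) ^ (κ / 2) * Y ^ (κ / 2) := by
    rw [← Real.rpow_add hNp, ← Real.mul_rpow (by norm_num) hYp.le]
    have : κ / 4 + κ / 4 = κ / 2 := by ring
    rw [this]
    exact Real.rpow_le_rpow hNp.le hN4 (by linarith)
  calc ∑ k ∈ (Ico a N).filter (fun k : ℕ => Y ^ c' ≤ (k : ℝ) / radG G k),
        ((k : ℝ) / radG G k) ^ (1 / 2 - δ)
      ≤ (5 * (Nat.log 2 N + 4 : ℕ) : ℝ) *
          (4 * Y ^ (1 / 2 - κ) * ∑ h ∈ Icc 1 N, (1 : ℝ) / radG G h) := htot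
    _ ≤ (K1 * (N : ℝ) ^ (κ / 4)) * (4 * Y ^ (1 / 2 - κ) * (C * (N : ℝ) ^ (κ / 4))) := by
        refine mul_le_mul hM (mul_le_mul_of_nonneg_left hR (by positivity)) ?_ (by positivity)
        refine mul_nonneg (by positivity) (sum_nonneg fun h _ => by positivity)
    _ = K1 * 4 * C * Y ^ (1 / 2 - κ) * ((N : ℝ) ^ (κ / 4) * (N : ℝ) ^ (κ / 4)) := by ring
    _ ≤ K1 * 4 * C * Y ^ (1 / 2 - κ) * ((4 : ℝ) ^ (κ / 2) * Y ^ (κ / 2)) :=
        mul_le_mul_of_nonneg_left hNκ (by positivity)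
    _ = K * (Y ^ (1 / 2 - κ) * Y ^ (κ / 2)) := by rw [hK]; ring
    _ ≤ Y ^ (κ / 4) * (Y ^ (1 / 2 - κ) * Y ^ (κ / 2)) :=
        mul_le_mul_of_nonneg_right hKY (by positivity)
    _ = Y ^ (1 / 2 - κ / 4) := by
        rw [← Real.rpow_add hYp, ← Real.rpow_add hYp]
        congr 1; ring

/-- POWER LEMMA, the form used by KS: the `k` are multiples of all given primes. -/
theorem power_lemma (δ : ℝ) (h1 : 1 / 18 < δ) (_h2 : δ ≤ 1 / 2) (c' : ℝ) (hc' : 0 < c') :
    ∃ c : ℝ, 0 < c ∧ ∃ Y0 : ℝ, ∀ (Y : ℝ) (a L : ℕ) (G : Finset ℕ), Y0 ≤ Y → Y ≤ a →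
      (a : ℝ) + L ≤ 4 * Y → (L : ℝ) ≤ Y ^ (1 / 2 : ℝ) → (∀ p ∈ G, p.Prime) →
      ∑ k ∈ (Ico a (a + L)).filter (fun k : ℕ => (∏ p ∈ G, p) ∣ k ∧ Y ^ c' ≤ (k : ℝ) / radG G k),
        ((k : ℝ) / radG G k) ^ (1 / 2 - δ) ≤ Y ^ (1 / 2 - c) := by
  obtain ⟨c, hc, Y0, h⟩ := power_lemma_card δ h1 c' hc' 4 (by norm_num)
  refine ⟨c, hc, max Y0 4, ?_⟩
  intro Y a L G hY0 ha haL hL hGp
  have hY4 : 4 ≤ Y := (le_max_right _ _).trans hY0
  have hYp : 0 < Y := by linarith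
  set A := (Ico a (a + L)).filter (fun k : ℕ => (∏ p ∈ G, p) ∣ k ∧ Y ^ c' ≤ (k : ℝ) / radG G k) with hA
  rcases A.eq_empty_or_nonempty with he | ⟨k, hk⟩
  · rw [he, sum_empty]; positivity
  · obtain ⟨hk1, hk2, _⟩ := mem_filter.mp hk
    have hkI := mem_Ico.mp hk1
    have ha0 : 0 < a := by
      rcases Nat.eq_zero_or_pos a with h | h
      · rw [h] at ha; simp at ha; linarith
      · exact h
    have hkpos : 0 < k := by omega
    have hcard : (G.card : ℝ) ≤ 4 * Real.log Y := by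
      have h3 : 2 ^ G.card ≤ k := by
        calc 2 ^ G.card = ∏ _p ∈ G, 2 := by rw [prod_const]
          _ ≤ ∏ p ∈ G, p := prod_le_prod' fun p hp => (hGp p hp).two_le
          _ ≤ k := Nat.le_of_dvd hkpos hk2
      have h4 : (2 : ℝ) ^ G.card ≤ 4 * Y := by
        have h5 : (k : ℝ) ≤ a + L := by exact_mod_cast hkI.2.le
        have h6 : (2 : ℝ) ^ G.card ≤ k := by exact_mod_cast h3
        linarith
      have h7 : (2 : ℝ) ^ G.card ≤ Y ^ 2 := by nlinarith
      have h8 := Real.log_le_log (by positivity) h7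
      rw [Real.log_pow, Real.log_pow] at h8
      have h9 : (1 / 2 : ℝ) < Real.log 2 := by have := Real.log_two_gt_d9; linarith
      have h10 : (0 : ℝ) ≤ (G.card : ℝ) := Nat.cast_nonneg _
      push_cast at h8
      nlinarith
    refine le_trans (sum_le_sum_of_subset_of_nonneg ?_ fun k _ _ => by positivity)
      (h Y a L G ((le_max_left _ _).trans hY0) ha haL hL hcard)
    intro z hz
    obtain ⟨hz1, hz2⟩ := mem_filter.mp hz
    exact mem_filter.mpr ⟨hz1, hz2.2⟩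

end Pool.Agent.Helper14.KSP
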